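import Pool.Agent.Helper96.SBMMain

set_option autoImplicit false

open Filter Topology
open scoped Classical
open Pool.Agent.Helper96.SBM

namespace Pool.Agent.Results.MP_9b1654_pr.MLFailsOpenRegime

theorem tendsto_exp_neg (a : ℝ) (ha : a < 0) : Tendsto (fun n : ℕ => Real.exp (a * n)) atTop (𝓝 0) := by
  apply Real.tendsto_exp_atBot.comp
  exact (tendsto_natCast_atTop_atTop (R := ℝ)).const_mul_atTop_of_neg ha

theorem tendsto_cheb : Tendsto (fun n : ℕ => 1 / ((1/200 : ℝ) ^ 2 * n)) atTop (𝓝 0) := by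
  have h : (fun n : ℕ => 1 / ((1/200 : ℝ) ^ 2 * n)) = fun n : ℕ => (40000 : ℝ) / n := by
    funext n
    rcases Nat.eq_zero_or_pos n with h | h
    · subst h; simp
    · field_simp
      norm_num
  rw [h]
  exact tendsto_const_div_atTop_nhds_zero_nat 40000

theorem delta_neg : (1/500 : ℝ) - 1/300 * Real.log 2 < 0 := by
  have := Real.log_two_gt_d9
  linarith

theorem est_nontrivial {prior : Fin 3 → ℝ} {M : Fin 3 → Fin 3 → ℝ} (hv : Valid prior M)
    (h : Near prior M) : Nontrivial' prior M degEst := by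
  refine ⟨1/50, by norm_num, ?_⟩
  have hp0 := h.p0
  rw [abs_lt] at hp0
  have hm00 : 100 ≤ M 0 0 := by
    have := h.m00
    rw [abs_lt] at this
    linarith
  apply tendsto_prob_one hv _ (fun n : ℕ => 1 / ((1/200 : ℝ) ^ 2 * n) + 1 / ((1/200 : ℝ) ^ 2 * n)
    + Real.exp (((1/500 : ℝ) - 1/300 * Real.log 2) * n) + Real.exp ((-(1/100) : ℝ) * n))
  · have := ((tendsto_cheb.add tendsto_cheb).add
      (tendsto_exp_neg _ delta_neg)).add (tendsto_exp_neg (-(1/100)) (by norm_num))
    simpa using this
  · filter_upwards [eventually_ge_atTop 250] with n hn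
    have hn0 : 0 < n := by omega
    have hn' : (0 : ℝ) < n := by exact_mod_cast hn0
    have b1 := prob_cnt_small hv n hn0 1 (1/200) (by norm_num)
    have b0 := prob_cnt_small hv n hn0 0 (1/200) (by norm_num)
    have bX := prob_extra_large hv 0 (1/500) (by norm_num) (small_entries h) n hn0 (1/300)
    have bI := prob_iso_large hv 0 hm00 n hn
    have hsub : {x : (Fin n → Fin 3) × SimpleGraph (Fin n) |
        (⨆ i, prior i) + 1/50 ≤ overlap (degEst n x.2) x.1}ᶜ ⊆
        (({x | (cnt x.1 1 : ℝ) < (prior 1 - 1/200) * n} ∪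
          {x | (cnt x.1 0 : ℝ) < (prior 0 - 1/200) * n}) ∪
          {x | 1/300 * (n : ℝ) < (extra 0 x.1 x.2 : ℝ)}) ∪
          {x | 2 / 25 * (n : ℝ) ≤ cnt x.1 0 ∧ cnt x.1 0 ≤ 2 * isoIn 0 x.1 x.2} := by
      rintro ⟨σ, G⟩ hx
      by_contra hcon
      apply hx
      simp only [Set.mem_union, not_or] at hcon
      obtain ⟨⟨⟨c1, c0⟩, cX⟩, cI⟩ := hcon
      have c1' : (prior 1 - 1/200) * n ≤ cnt σ 1 := not_lt.mp c1
      have c0' : (prior 0 - 1/200) * n ≤ cnt σ 0 := not_lt.mp c0
      have cX' : (extra 0 σ G : ℝ) ≤ 1/300 * n := not_lt.mp cX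
      have cI' : 2 * isoIn 0 σ G < cnt σ 0 := by
        by_contra hcc
        apply cI
        refine ⟨?_, not_lt.mp hcc⟩
        show 2 / 25 * (n : ℝ) ≤ cnt σ 0
        nlinarith
      exact est_good hn0 h σ G c1' c0' cX' cI'
    refine le_trans (prob_mono hv n hsub) ?_
    refine le_trans (prob_union_le hv n _ _) ?_
    refine add_le_add (le_trans (prob_union_le hv n _ _)
      (add_le_add (le_trans (prob_union_le hv n _ _) (add_le_add b1 b0)) bX)) ?_
    refine le_trans bI (le_of_eq ?_)
    congr 1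
    ring

theorem ml_tendsto {prior : Fin 3 → ℝ} {M : Fin 3 → Fin 3 → ℝ} (hv : Valid prior M)
    (h : Near prior M) (est : Estimator 3) (hML : IsML M est) :
    Tendsto (fun n : ℕ => prob prior M n
      {x | overlap (est n x.2) x.1 ≤ (⨆ i, prior i) - 1/100}) atTop (𝓝 1) := by
  apply tendsto_prob_one hv _ (fun n : ℕ => 1 / ((1/200 : ℝ) ^ 2 * n)
    + Real.exp (((1/500 : ℝ) - 1/300 * Real.log 2) * n))
  · have := tendsto_cheb.add (tendsto_exp_neg _ delta_neg)
    simpa using this
  · filter_upwards [eventually_ge_atTop 10000000] with n hn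
    have hn0 : 0 < n := by omega
    have b1 := prob_cnt_small hv n hn0 1 (1/200) (by norm_num)
    have bX := prob_extra_large hv 0 (1/500) (by norm_num) (small_entries h) n hn0 (1/300)
    have hsub : {x : (Fin n → Fin 3) × SimpleGraph (Fin n) |
        overlap (est n x.2) x.1 ≤ (⨆ i, prior i) - 1/100}ᶜ ⊆
        {x | (cnt x.1 1 : ℝ) < (prior 1 - 1/200) * n} ∪
          {x | 1/300 * (n : ℝ) < (extra 0 x.1 x.2 : ℝ)} := by
      rintro ⟨σ, G⟩ hx
      by_contra hcon
      apply hx
      simp only [Set.mem_union, not_or] at hcon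
      obtain ⟨c1, cX⟩ := hcon
      have c1' : (prior 1 - 1/200) * n ≤ cnt σ 1 := not_lt.mp c1
      have cX' : (extra 0 σ G : ℝ) ≤ 1/300 * n := not_lt.mp cX
      exact ml_good hn hv h σ (est n G) G (hML n G) c1' cX'
    refine le_trans (prob_mono hv n hsub) ?_
    exact le_trans (prob_union_le hv n _ _) (add_le_add b1 bX)

theorem ml_not_nontrivial {prior : Fin 3 → ℝ} {M : Fin 3 → Fin 3 → ℝ} (hv : Valid prior M)
    (h : Near prior M) (est : Estimator 3) (hML : IsML M est) : ¬ Nontrivial' prior M est := by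
  rintro ⟨ε, hε, ht⟩
  have h1 := ml_tendsto hv h est hML
  have h2 : Tendsto (fun n : ℕ => prob prior M n
      {x | (⨆ i, prior i) + ε ≤ overlap (est n x.2) x.1} + prob prior M n
      {x | overlap (est n x.2) x.1 ≤ (⨆ i, prior i) - 1/100}) atTop (𝓝 (1 + 1)) := ht.add h1
  have h3 : ∀ n : ℕ, prob prior M n
      {x | (⨆ i, prior i) + ε ≤ overlap (est n x.2) x.1} + prob prior M n
      {x | overlap (est n x.2) x.1 ≤ (⨆ i, prior i) - 1/100} ≤ 1 := by
    intro n
    have hc := prob_compl hv n {x | (⨆ i, prior i) + ε ≤ overlap (est n x.2) x.1}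
    refine le_trans (add_le_add (le_refl _) (prob_mono hv n ?_)) hc.le
    intro x hx hx2
    have e1 : overlap (est n x.2) x.1 ≤ (⨆ i, prior i) - 1/100 := hx
    have e2 : (⨆ i, prior i) + ε ≤ overlap (est n x.2) x.1 := hx2
    linarith
  have h4 := le_of_tendsto' h2 h3
  norm_num at h4

theorem exists_ml {k : ℕ} (hk : 0 < k) (M : Fin k → Fin k → ℝ) : ∃ est : Estimator k, IsML M est := by
  have : Nonempty (Fin k) := ⟨⟨0, hk⟩⟩
  have h : ∀ (n : ℕ) (G : SimpleGraph (Fin n)), ∃ s : Fin n → Fin k, ∀ s', condProb M s' G ≤ condProb M s G := by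
    intro n G
    obtain ⟨s, -, hs⟩ := Finset.exists_max_image (Finset.univ : Finset (Fin n → Fin k))
      (fun s => condProb M s G) Finset.univ_nonempty
    exact ⟨s, fun s' => hs s' (Finset.mem_univ _)⟩
  choose f hf using h
  exact ⟨f, hf⟩

/-- There is a point `(prior₀, M₀)` of the parameter space of the sparse stochastic block model with
three communities and a radius `r > 0` such that for all valid parameters within distance `r` of
it some estimator achieves non-trivial correlation with the hidden labels, while no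
maximum-likelihood estimator does, whatever the tie-breaking; in fact the overlap of every
maximum-likelihood estimator is at most `max prior - 1/100` with probability tending to one. -/
theorem result : ∃ (prior₀ : Fin 3 → ℝ) (M₀ : Fin 3 → Fin 3 → ℝ) (r : ℝ), 0 < r ∧ Valid prior₀ M₀ ∧
    ∀ (prior : Fin 3 → ℝ) (M : Fin 3 → Fin 3 → ℝ), Valid prior M →
      (∀ i, |prior i - prior₀ i| < r) → (∀ i j, |M i j - M₀ i j| < r) →
      (∃ est : Estimator 3, Nontrivial' prior M est) ∧
      (∃ est : Estimator 3, IsML M est) ∧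
      (∀ est : Estimator 3, IsML M est → ¬ Nontrivial' prior M est ∧
        Tendsto (fun n : ℕ => prob prior M n
          {x | overlap (est n x.2) x.1 ≤ (⨆ i, prior i) - 1/100}) atTop (𝓝 1)) := by
  refine ⟨prior₀, M₀, 1/1000000, by norm_num, ?_, ?_⟩
  · refine ⟨?_, ?_, ?_, ?_⟩
    · intro i; fin_cases i <;> norm_num [prior₀]
    · simp only [prior₀, Fin.sum_univ_three, Matrix.cons_val_zero, Matrix.cons_val_one,
        Matrix.cons_val]
      norm_num
    · intro i j; fin_cases i <;> fin_cases j <;> norm_num [M₀]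
    · intro i j; fin_cases i <;> fin_cases j <;> norm_num [M₀]
  · intro prior M hv hp hM
    have hnear : Near prior M := by
      constructor
      · simpa [prior₀] using hp 0
      · simpa [prior₀] using hp 1
      · simpa [prior₀] using hp 2
      · simpa [M₀] using hM 0 0
      · simpa [M₀] using hM 0 1
      · simpa [M₀] using hM 0 2
      · simpa [M₀] using hM 1 0
      · simpa [M₀] using hM 1 1
      · simpa [M₀] using hM 1 2
      · simpa [M₀] using hM 2 0
      · simpa [M₀] using hM 2 1
      · simpa [M₀] using hM 2 2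
    exact ⟨⟨degEst, est_nontrivial hv hnear⟩, exists_ml (by norm_num) M,
      fun est hML => ⟨ml_not_nontrivial hv hnear est hML, ml_tendsto hv hnear est hML⟩⟩

end Pool.Agent.Results.MP_9b1654_pr.MLFailsOpenRegime
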